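import Pool.Agent.TD.N.Defs

/-! Matroids (PAPER2.md, MT): values on the closure of an independent set (module TD_MT_C1). -/

namespace Pool.Agent.TD

variable {E : Type} [Finite E] {M : Matroid E} {y : E → ℝ}

/-- (C1) -/
theorem BergM.closure (hy : BergM M y) {I : Set E} (hI : M.Indep I) (hinj : Set.InjOn y I) {e : E}
    (he : e ∈ M.closure I) (heI : e ∉ I) : ∃ b ∈ M.fundCircuit e I, b ∈ I ∧ y e = y b ∧
      ∀ b' ∈ M.fundCircuit e I, y b' ≤ y b := by
  have hC : M.IsCircuit (M.fundCircuit e I) := hI.fundCircuit_isCircuit he heI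
  have heC : e ∈ M.fundCircuit e I := M.mem_fundCircuit e I
  have hsub : ∀ b ∈ M.fundCircuit e I, b ≠ e → b ∈ I := by
    intro b hb hbe
    rcases M.fundCircuit_subset_insert e I hb with h | h
    · exact absurd h hbe
    · exact h
  obtain ⟨f, hf, hfe, hyf⟩ := hy _ hC e heC
  obtain ⟨b, hb, hmax⟩ := Set.exists_max_image (M.fundCircuit e I \ {e}) y (Set.toFinite _)
    ⟨f, hf, hfe⟩
  have hbI : b ∈ I := hsub b hb.1 hb.2
  have h1 : y e ≤ y b := hyf.trans (hmax f ⟨hf, hfe⟩)
  obtain ⟨g, hg, hgb, hyg⟩ := hy _ hC b hb.1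
  have hge : g = e := by
    by_contra hne
    have h2 : y g ≤ y b := hmax g ⟨hg, hne⟩
    exact hgb (hinj (hsub g hg hne) hbI (le_antisymm h2 hyg))
  rw [hge] at hyg
  refine ⟨b, hb.1, hbI, le_antisymm h1 hyg, ?_⟩
  intro b' hb'
  by_cases hbe : b' = e
  · rw [hbe]
    exact h1
  · exact hmax b' ⟨hb', hbe⟩

/-- (C1), weak form -/
theorem BergM.mem_image (hy : BergM M y) {I : Set E} (hI : M.Indep I) (hinj : Set.InjOn y I) {e : E}
    (he : e ∈ M.closure I) : ∃ b ∈ I, y e = y b := by
  by_cases heI : e ∈ I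
  · exact ⟨e, heI, rfl⟩
  · obtain ⟨b, _, hb, h, _⟩ := hy.closure hI hinj he heI
    exact ⟨b, hb, h⟩

/-- An element with a new value is independent. -/
theorem BergM.insert_indep (hy : BergM M y) (hE : M.E = Set.univ) {I : Set E} (hI : M.Indep I)
    (hinj : Set.InjOn y I) {e : E} (he : ∀ b ∈ I, y e ≠ y b) :
    M.Indep (insert e I) ∧ Set.InjOn y (insert e I) := by
  have heI : e ∉ I := fun h => he e h rfl
  constructor
  · rw [hI.insert_indep_iff_of_notMem heI]
    refine ⟨by rw [hE]; exact Set.mem_univ e, ?_⟩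
    intro hcl
    obtain ⟨b, hb, h⟩ := hy.mem_image hI hinj hcl
    exact he b hb h
  · rw [Set.injOn_insert heI]
    refine ⟨hinj, ?_⟩
    rintro ⟨b, hb, h⟩
    exact he b hb h.symm

/-- (C4) -/
theorem BergM.nonpos (hy : BergM M y) (hE : M.E = Set.univ) {B : Set E} (hB : M.IsBase B)
    (h : ∀ b ∈ B, y b ≤ 0) (e : E) : y e ≤ 0 := by
  by_cases heB : e ∈ B
  · exact h e heB
  · have hC : M.IsCircuit (M.fundCircuit e B) :=
      hB.fundCircuit_isCircuit (by rw [hE]; exact Set.mem_univ e) heB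
    obtain ⟨f, hf, hfe, hyf⟩ := hy _ hC e (M.mem_fundCircuit e B)
    rcases M.fundCircuit_subset_insert e B hf with h1 | h1
    · exact absurd h1 hfe
    · exact hyf.trans (h f h1)

/-- Uniqueness: a point of the tropical linear space is determined by its values on a basis, if
these are different. -/
theorem BergM.eq_of_base {y' : E → ℝ} (hy : BergM M y) (hy' : BergM M y') (hE : M.E = Set.univ)
    {B : Set E} (hB : M.IsBase B) (h : ∀ b ∈ B, y b = y' b) (hinj : Set.InjOn y B) : y = y' := by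
  have hinj' : Set.InjOn y' B := by
    intro b hb c hc hbc
    exact hinj hb hc (by rw [h b hb, h c hc]; exact hbc)
  funext e
  by_cases heB : e ∈ B
  · exact h e heB
  · have hcl : e ∈ M.closure B := by
      rw [hB.closure_eq, hE]
      exact Set.mem_univ e
    obtain ⟨b, hbC, hb, hye, hmax⟩ := hy.closure hB.indep hinj hcl heB
    obtain ⟨b', hbC', hb', hye', hmax'⟩ := hy'.closure hB.indep hinj' hcl heB
    have h1 : y b' ≤ y b := hmax b' hbC'
    have h2 : y' b ≤ y' b' := hmax' b hbC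
    rw [← h b hb, ← h b' hb'] at h2
    rw [hye, hye', ← h b' hb']
    exact le_antisymm h2 h1

end Pool.Agent.TD
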