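import Pool.Agent.TD.N.Defs

/-! Matroids (PAPER2.md, MT): the section of a basis (module TD_MT_C2). -/

namespace Pool.Agent.TD

variable {E : Type} {M : Matroid E}

namespace MTC2

/-- The part of the fundamental circuit in the basis is not empty. -/
theorem nonempty_D (hE : M.E = Set.univ) (hl : ∀ e, M.Indep {e}) {B : Set E}
    (hB : M.IsBase B) (e : E) : (M.fundCircuit e B ∩ B).Nonempty := by
  by_cases he : e ∈ B
  · exact ⟨e, M.mem_fundCircuit e B, he⟩
  · have hC : M.IsCircuit (M.fundCircuit e B) :=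
      hB.fundCircuit_isCircuit (by rw [hE]; exact Set.mem_univ e) he
    by_contra hne
    rw [Set.not_nonempty_iff_eq_empty] at hne
    have hsub : M.fundCircuit e B ⊆ {e} := by
      intro x hx
      rcases M.fundCircuit_subset_insert e B hx with h | h
      · exact h
      · have h2 : x ∈ M.fundCircuit e B ∩ B := ⟨hx, h⟩
        rw [hne] at h2
        exact absurd h2 (Set.notMem_empty x)
    exact hC.not_indep ((hl e).subset hsub)

/-- Closure of a part of a basis. -/
theorem mem_closure_iff_D (hE : M.E = Set.univ) {B : Set E} (hB : M.IsBase B) {I : Set E}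
    (hI : I ⊆ B) (e : E) : e ∈ M.closure I ↔ M.fundCircuit e B ∩ B ⊆ I := by
  have hIE : ∀ S : Set E, S ⊆ M.E := fun S => by rw [hE]; exact Set.subset_univ S
  by_cases he : e ∈ B
  · rw [Matroid.fundCircuit_eq_of_mem he]
    constructor
    · intro hcl x hx
      obtain ⟨rfl, hxB⟩ := hx
      have h1 := hB.indep.closure_inter_eq_self_of_subset hI
      rw [← h1]
      exact ⟨hcl, hxB⟩
    · intro h
      exact M.mem_closure_of_mem (h ⟨rfl, he⟩) (hIE I)
  · constructor
    · intro hcl x hx
      have heI : e ∉ I := fun h => he (hI h)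
      obtain ⟨C, hCs, hC, heC⟩ := Matroid.exists_isCircuit_of_mem_closure hcl heI
      have h1 : C = M.fundCircuit e B :=
        hC.eq_fundCircuit_of_subset hB.indep (hCs.trans (Set.insert_subset_insert hI))
      have h2 : x ∈ C := by rw [h1]; exact hx.1
      rcases hCs h2 with h3 | h3
      · rw [h3] at hx
        exact absurd hx.2 he
      · exact h3
    · intro h
      have hC : M.IsCircuit (M.fundCircuit e B) :=
        hB.fundCircuit_isCircuit (by rw [hE]; exact Set.mem_univ e) he
      have h1 := hC.mem_closure_sdiff_singleton_of_mem (M.mem_fundCircuit e B)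
      rw [M.fundCircuit_sdiff_eq_inter he] at h1
      exact M.closure_subset_closure h h1

end MTC2

open MTC2 in
/-- (C2) -/
theorem exists_bergM [Finite E] (hE : M.E = Set.univ) (hl : ∀ e, M.Indep {e}) {B : Set E}
    (hB : M.IsBase B) (u : E → ℝ) : ∃ y : E → ℝ, BergM M y ∧ (∀ b ∈ B, y b = u b) ∧
      (∀ e, ∃ b ∈ B, y e = u b) ∧
      ∀ e ∉ B, ∃ b ∈ M.fundCircuit e B, b ∈ B ∧ y e = u b ∧
        ∀ b' ∈ M.fundCircuit e B, b' ∈ B → u b' ≤ u b := by
  have hex : ∀ e : E, ∃ b ∈ M.fundCircuit e B ∩ B, ∀ b' ∈ M.fundCircuit e B ∩ B, u b' ≤ u b := by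
    intro e
    exact Set.exists_max_image _ u (Set.toFinite _) (nonempty_D hE hl hB e)
  choose β hβ hmax using hex
  refine ⟨fun e => u (β e), ?_, ?_, ?_, ?_⟩
  · intro C hC e he
    by_contra hcon
    push Not at hcon
    have hI : {b | b ∈ B ∧ u b < u (β e)} ⊆ B := fun b hb => hb.1
    have h1 : C \ {e} ⊆ M.closure {b | b ∈ B ∧ u b < u (β e)} := by
      intro f hf
      rw [mem_closure_iff_D hE hB hI]
      intro b hb
      exact ⟨hb.2, (hmax f b hb).trans_lt (hcon f hf.1 hf.2)⟩
    have h2 : e ∈ M.closure {b | b ∈ B ∧ u b < u (β e)} :=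
      M.closure_subset_closure_of_subset_closure h1 (hC.mem_closure_sdiff_singleton_of_mem he)
    rw [mem_closure_iff_D hE hB hI] at h2
    exact lt_irrefl _ (h2 (hβ e)).2
  · intro b hb
    have h := (hβ b).1
    rw [Matroid.fundCircuit_eq_of_mem hb] at h
    show u (β b) = u b
    rw [show β b = b from h]
  · intro e
    exact ⟨β e, (hβ e).2, rfl⟩
  · intro e _
    exact ⟨β e, (hβ e).1, (hβ e).2, rfl, fun b' h1 h2 => hmax e b' ⟨h1, h2⟩⟩

end Pool.Agent.TD
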