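import Pool.Agent.TD.MT.C2

/-! Matroids (PAPER2.md, MT): exchange, generic points (module TD_MT_C3). -/

namespace Pool.Agent.TD

variable {E : Type} {M : Matroid E}

theorem base_induction_aux [Finite E] {e0 : E} {P : Set E → Prop}
    (step : ∀ (B : Set E) (b e : E), M.IsBase B → e0 ∈ B → b ∈ B → b ≠ e0 → e ∉ B →
      M.IsBase (insert e (B \ {b})) → P B → P (insert e (B \ {b})))
    {B : Set E} (hB : M.IsBase B) (he : e0 ∈ B) (n : ℕ) : ∀ B' : Set E, M.IsBase B' → e0 ∈ B' →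
      P B' → (B' \ B).ncard = n → P B := by
  induction n with
  | zero =>
    intro B' hB' he' hP hn
    have h1 : B' \ B = ∅ := (Set.ncard_eq_zero (Set.toFinite _)).1 hn
    have h2 : B' ⊆ B := Set.sdiff_eq_empty.1 h1
    rw [← hB'.eq_of_subset_isBase hB h2]
    exact hP
  | succ n ih =>
    intro B' hB' he' hP hn
    have h1 : (B' \ B).Nonempty := by
      rw [Set.nonempty_iff_ne_empty]
      intro h
      rw [h, Set.ncard_empty] at hn
      omega
    obtain ⟨b, hb1, hb2⟩ := h1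
    obtain ⟨e, ⟨he1, he2⟩, he3⟩ := hB'.exchange_mem hB hb1 hb2
    have hbe : b ≠ e0 := fun h => hb2 (by rw [h]; exact he)
    have h3 := step B' b e hB' he' hb1 hbe he2 he3 hP
    refine ih (insert e (B' \ {b})) he3 (Set.mem_insert_of_mem _ ⟨he', fun h => hbe h.symm⟩) h3 ?_
    have h4 : insert e (B' \ {b}) \ B = (B' \ B) \ {b} := by
      ext x
      simp only [Set.mem_sdiff, Set.mem_insert_iff, Set.mem_singleton_iff]
      constructor
      · rintro ⟨h5 | h5, h6⟩
        · exact absurd (by rw [h5]; exact he1) h6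
        · exact ⟨⟨h5.1, h6⟩, h5.2⟩
      · rintro ⟨⟨h5, h6⟩, h7⟩
        exact ⟨Or.inr ⟨h5, h7⟩, h6⟩
    have h5 : b ∈ B' \ B := ⟨hb1, hb2⟩
    rw [h4, Set.ncard_sdiff_singleton_of_mem h5, hn]
    rfl

/-- (C3) -/
theorem base_induction [Finite E] {e0 : E} {P : Set E → Prop} {B0 : Set E} (hB0 : M.IsBase B0)
    (he0 : e0 ∈ B0) (h0 : P B0)
    (step : ∀ (B : Set E) (b e : E), M.IsBase B → e0 ∈ B → b ∈ B → b ≠ e0 → e ∉ B →
      M.IsBase (insert e (B \ {b})) → P B → P (insert e (B \ {b})))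
    {B : Set E} (hB : M.IsBase B) (he : e0 ∈ B) : P B :=
  base_induction_aux step hB he _ B0 hB0 he0 h0 rfl

/-- Small different values. -/
theorem exists_small [Finite E] (e0 : E) {δ : ℝ} (hδ : 0 < δ) : ∃ u : E → ℝ,
    Function.Injective u ∧ u e0 = 0 ∧ ∀ e, |u e| < δ := by
  obtain ⟨N, ⟨f⟩⟩ := Finite.exists_equiv_fin E
  have hN : (0 : ℝ) < N + 1 := by positivity
  have hc : 0 < δ / (N + 1) := by positivity
  refine ⟨fun e => δ / (N + 1) * (((f e : ℕ) : ℝ) - ((f e0 : ℕ) : ℝ)), ?_, by simp, ?_⟩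
  · intro x y h
    have h1 : ((f x : ℕ) : ℝ) - ((f e0 : ℕ) : ℝ) = ((f y : ℕ) : ℝ) - ((f e0 : ℕ) : ℝ) :=
      mul_left_cancel₀ hc.ne' h
    have h2 : ((f x : ℕ) : ℝ) = ((f y : ℕ) : ℝ) := by linarith
    exact f.injective (Fin.ext (by exact_mod_cast h2))
  · intro e
    rw [abs_mul, abs_of_pos hc]
    have h1 : |((f e : ℕ) : ℝ) - ((f e0 : ℕ) : ℝ)| < N + 1 := by
      have h2 : ((f e : ℕ) : ℝ) < N := by exact_mod_cast (f e).2
      have h3 : ((f e0 : ℕ) : ℝ) < N := by exact_mod_cast (f e0).2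
      have h4 : (0 : ℝ) ≤ ((f e : ℕ) : ℝ) := Nat.cast_nonneg _
      have h5 : (0 : ℝ) ≤ ((f e0 : ℕ) : ℝ) := Nat.cast_nonneg _
      rw [abs_lt]
      constructor <;> linarith
    calc δ / (N + 1) * |((f e : ℕ) : ℝ) - ((f e0 : ℕ) : ℝ)| < δ / (N + 1) * (N + 1) :=
          mul_lt_mul_of_pos_left h1 hc
      _ = δ := by field_simp

/-- Small points of the tropical linear space which are generic for a basis. -/
theorem exists_gen [Finite E] (hE : M.E = Set.univ) (hl : ∀ e, M.Indep {e}) {e0 : E} {B : Set E}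
    (hB : M.IsBase B) (he0 : e0 ∈ B) {δ : ℝ} (hδ : 0 < δ) : ∃ y : E → ℝ, BergM M y ∧ y e0 = 0 ∧
      (∀ e, |y e| < δ) ∧ Set.InjOn y B := by
  obtain ⟨u, hu1, hu2, hu3⟩ := exists_small e0 hδ
  obtain ⟨y, hy1, hy2, hy3, -⟩ := exists_bergM hE hl hB u
  refine ⟨y, hy1, by rw [hy2 e0 he0, hu2], fun e => ?_, fun b hb b' hb' h => ?_⟩
  · obtain ⟨b, -, h⟩ := hy3 e
    rw [h]
    exact hu3 b
  · rw [hy2 b hb, hy2 b' hb'] at h
    exact hu1 h

/-- Small points which are generic for two neighbouring bases. -/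
theorem exists_gen2 [Finite E] (hE : M.E = Set.univ) (hl : ∀ e, M.Indep {e}) {e0 b e : E}
    {B : Set E} (hB : M.IsBase B) (he0 : e0 ∈ B) (hb : b ∈ B) (hbe : b ≠ e0) (he : e ∉ B)
    (hB' : M.IsBase (insert e (B \ {b}))) {δ : ℝ} (hδ : 0 < δ) :
    ∃ y : E → ℝ, BergM M y ∧ y e0 = 0 ∧ (∀ e, |y e| < δ) ∧ Set.InjOn y B ∧
      Set.InjOn y (insert e (B \ {b})) := by
  classical
  obtain ⟨v, hv1, hv2, hv3⟩ := exists_small e0 (half_pos hδ)
  set u : E → ℝ := fun x => if x = b then 3 / 4 * δ else v x with hu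
  have hub : u b = 3 / 4 * δ := if_pos rfl
  have hun : ∀ x, x ≠ b → u x = v x := fun x hx => if_neg hx
  have hlt : ∀ x, x ≠ b → u x < u b := by
    intro x hx
    rw [hub, hun x hx]
    have := (abs_lt.1 (hv3 x)).2
    linarith
  have hinj : Function.Injective u := by
    intro x x' h
    by_cases h1 : x = b
    · by_cases h2 : x' = b
      · rw [h1, h2]
      · rw [h1] at h
        exact absurd h (hlt x' h2).ne'
    · by_cases h2 : x' = b
      · rw [h2] at h
        exact absurd h (hlt x h1).ne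
      · rw [hun x h1, hun x' h2] at h
        exact hv1 h
  have hsm : ∀ x, |u x| < δ := by
    intro x
    by_cases h1 : x = b
    · rw [h1, hub, abs_of_pos (by positivity)]
      linarith
    · rw [hun x h1]
      have := hv3 x
      linarith
  obtain ⟨y, hy1, hy2, hy3, hy4⟩ := exists_bergM hE hl hB u
  have hyb : y e = u b := by
    obtain ⟨b1, hb1, hb2, hb3, hb4⟩ := hy4 e he
    have hcirc : b ∈ M.fundCircuit e B := by
      have hecl : e ∈ M.closure B := by
        rw [hB.closure_eq, hE]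
        exact Set.mem_univ e
      rw [hB.indep.mem_fundCircuit_iff hecl he]
      refine hB'.indep.subset ?_
      rintro x ⟨hx1 | hx1, hx2⟩
      · exact Or.inl hx1
      · exact Or.inr ⟨hx1, hx2⟩
    have h1 : b1 = b := by
      by_contra h2
      have h3 := hb4 b hcirc hb
      have h4 := hlt b1 h2
      linarith
    rw [hb3, h1]
  refine ⟨y, hy1, by rw [hy2 e0 he0, hun e0 (fun h => hbe h.symm), hv2], fun x => ?_,
    fun x hx x' hx' h => ?_, ?_⟩
  · obtain ⟨b1, -, h⟩ := hy3 x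
    rw [h]
    exact hsm b1
  · rw [hy2 x hx, hy2 x' hx'] at h
    exact hinj h
  · rintro x (rfl | ⟨hx1, hx2⟩) x' (rfl | ⟨hx1', hx2'⟩) h
    · rfl
    · rw [hyb, hy2 x' hx1'] at h
      exact absurd (hinj h).symm hx2'
    · rw [hyb, hy2 x hx1] at h
      exact absurd (hinj h) hx2
    · rw [hy2 x hx1, hy2 x' hx1'] at h
      exact hinj h

/-- Given values on an independent set extend to a basis: a small point with prescribed different
values on the basis, `y e0 = 0`. -/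
theorem exists_gen3 [Finite E] (hE : M.E = Set.univ) (hl : ∀ e, M.Indep {e}) {e0 : E}
    {B : Set E} (hB : M.IsBase B) (he0 : e0 ∈ B) (u : E → ℝ) (hu : u e0 = 0)
    (hinj : Set.InjOn u B) {δ : ℝ} (hδ : ∀ b ∈ B, |u b| < δ) :
    ∃ y : E → ℝ, BergM M y ∧ y e0 = 0 ∧ (∀ e, |y e| < δ) ∧ Set.InjOn y B ∧ (∀ b ∈ B, y b = u b) ∧
      ∀ e ∉ B, ∃ b ∈ M.fundCircuit e B, b ∈ B ∧ y e = u b ∧
        ∀ b' ∈ M.fundCircuit e B, b' ∈ B → u b' ≤ u b := by
  obtain ⟨y, hy1, hy2, hy3, hy4⟩ := exists_bergM hE hl hB u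
  refine ⟨y, hy1, by rw [hy2 e0 he0, hu], fun e => ?_, fun b hb b' hb' h => ?_, hy2, hy4⟩
  · obtain ⟨b, hb, h⟩ := hy3 e
    rw [h]
    exact hδ b hb
  · rw [hy2 b hb, hy2 b' hb'] at h
    exact hinj hb hb' h

/-- Every independent set containing `e0` lies in a basis; all bases have the same size. -/
theorem ncard_base [Finite E] {B B' : Set E} (hB : M.IsBase B) (hB' : M.IsBase B') :
    B.ncard = B'.ncard := hB.ncard_eq_ncard_of_isBase hB'

/-- An independent set has at most as many elements as a basis, and is a basis if it has the same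
number. -/
theorem ncard_indep [Finite E] {B I : Set E} (hB : M.IsBase B) (hI : M.Indep I) :
    I.ncard ≤ B.ncard ∧ (I.ncard = B.ncard → M.IsBase I) := by
  obtain ⟨B', hB', hI'⟩ := hI.exists_isBase_superset
  have h1 := ncard_base hB hB'
  refine ⟨?_, fun h => ?_⟩
  · rw [h1]
    exact Set.ncard_le_ncard hI' (Set.toFinite _)
  · have h2 : I = B' := Set.eq_of_subset_of_ncard_le hI' (by rw [h, h1]) (Set.toFinite _)
    rw [h2]
    exact hB'

end Pool.Agent.TD
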