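import Pool.Agent.TD.N.Defs

/-! Matroids (PAPER2.md, MT): the local structure of a tropical linear space
(module TD_MT_C5). -/

namespace Pool.Agent.TD

variable {E : Type} {M : Matroid E}

/-- Symmetric exchange. -/
theorem symm_exchange [Finite E] {B B' : Set E} (hB : M.IsBase B) (hB' : M.IsBase B') {x : E}
    (hx : x ∈ B \ B') : ∃ y ∈ B' \ B, M.IsBase (insert y (B \ {x})) ∧
      M.IsBase (insert x (B' \ {y})) := by
  have hxE : x ∈ M.E := hB.subset_ground hx.1
  have hC := hB'.fundCircuit_isCircuit hxE hx.2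
  have hK := M.fundCocircuit_isCocircuit hx.1 hB
  have hxC : x ∈ M.fundCircuit x B' := M.mem_fundCircuit x B'
  have hxK : x ∈ M.fundCocircuit x B := M.mem_fundCocircuit x B
  obtain ⟨y, ⟨hyC, hyK⟩, hyx⟩ :=
    (hC.isCocircuit_inter_nontrivial hK ⟨x, hxC, hxK⟩).exists_ne x
  have hyB' : y ∈ B' := by
    rcases M.fundCircuit_subset_insert x B' hyC with h | h
    · exact absurd h hyx
    · exact h
  have hyB : y ∈ M.E \ B := by
    rcases M.fundCocircuit_subset_insert_compl x B hyK with h | h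
    · exact absurd h hyx
    · exact h
  refine ⟨y, ⟨hyB', hyB.2⟩, ?_, ?_⟩
  · have h1 : x ∈ M.fundCircuit y B := hB.mem_fundCocircuit_iff_mem_fundCircuit.1 hyK
    have hcl : y ∈ M.closure B := by rw [hB.closure_eq]; exact hyB.1
    have h2 := (hB.indep.mem_fundCircuit_iff hcl hyB.2).1 h1
    rw [← Set.insert_sdiff_singleton_comm hyx] at h2
    exact hB.exchange_isBase_of_indep hyB.2 h2
  · have hcl : x ∈ M.closure B' := by rw [hB'.closure_eq]; exact hxE
    have h2 := (hB'.indep.mem_fundCircuit_iff hcl hx.2).1 hyC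
    rw [← Set.insert_sdiff_singleton_comm (Ne.symm hyx)] at h2
    exact hB'.exchange_isBase_of_indep hx.2 h2

/-- The weight of a set. -/
noncomputable def wtS (v : E → ℝ) (B : Set E) : ℝ := ∑ᶠ e ∈ B, v e

/-- `B` is a basis of minimal weight. -/
def IsMin (M : Matroid E) (v : E → ℝ) (B : Set E) : Prop :=
  M.IsBase B ∧ ∀ B', M.IsBase B' → wtS v B ≤ wtS v B'

theorem wtS_exchange [Finite E] (v : E → ℝ) {B : Set E} {x y : E} (hx : x ∈ B) (hy : y ∉ B) :
    wtS v (insert y (B \ {x})) = wtS v B - v x + v y := by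
  have h1 : wtS v B = v x + wtS v (B \ {x}) := by
    unfold wtS
    rw [← finsum_mem_insert v (fun h => h.2 rfl) (Set.toFinite _)]
    rw [Set.insert_sdiff_singleton, Set.insert_eq_of_mem hx]
  have h2 : wtS v (insert y (B \ {x})) = v y + wtS v (B \ {x}) := by
    unfold wtS
    rw [finsum_mem_insert v (fun h => hy h.1) (Set.toFinite _)]
  rw [h1, h2]
  ring

theorem wtS_add [Finite E] (v y : E → ℝ) (B : Set E) : wtS (v + y) B = wtS v B + wtS y B := by
  unfold wtS
  rw [← finsum_mem_add_distrib (Set.toFinite B)]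
  rfl

theorem abs_wtS_le [Finite E] (y : E → ℝ) (B : Set E) {δ : ℝ} (hδ : 0 ≤ δ)
    (h : ∀ e, |y e| ≤ δ) : |wtS y B| ≤ Nat.card E * δ := by
  classical
  haveI := Fintype.ofFinite E
  have h1 : wtS y B = ∑ e : E, if e ∈ B then y e else 0 := by
    unfold wtS
    rw [finsum_mem_def, finsum_eq_sum_of_fintype]
    apply Finset.sum_congr rfl
    intro e _
    rw [Set.indicator_apply]
  rw [h1, Nat.card_eq_fintype_card]
  calc |∑ e : E, if e ∈ B then y e else 0| ≤ ∑ e : E, |if e ∈ B then y e else 0| :=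
        Finset.abs_sum_le_sum_abs _ _
    _ ≤ ∑ _e : E, δ := by
        apply Finset.sum_le_sum
        intro e _
        split_ifs
        · exact h e
        · rw [abs_zero]; exact hδ
    _ = Fintype.card E * δ := by
        rw [Finset.sum_const, nsmul_eq_mul, Finset.card_univ]

theorem exists_isMin [Finite E] (M : Matroid E) (v : E → ℝ) : ∃ B, IsMin M v B := by
  obtain ⟨B0, hB0⟩ := M.exists_isBase
  obtain ⟨B, hB, hmin⟩ := Set.exists_min_image {B | M.IsBase B} (wtS v) (Set.toFinite _) ⟨B0, hB0⟩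
  exact ⟨B, hB, fun B' hB' => hmin B' hB'⟩

theorem IsMin.eq {v : E → ℝ} {B B' : Set E} (h : IsMin M v B) (h' : IsMin M v B') :
    wtS v B = wtS v B' := le_antisymm (h.2 B' h'.1) (h'.2 B h.1)

theorem IsMin.of_le {v : E → ℝ} {B B' : Set E} (h : IsMin M v B) (hb : M.IsBase B')
    (h' : wtS v B' ≤ wtS v B) : IsMin M v B' := ⟨hb, fun B'' h'' => h'.trans (h.2 B'' h'')⟩

/-- The bases of minimal weight are the bases of a matroid. -/
theorem exists_minM [Finite E] (hE : M.E = Set.univ) (v : E → ℝ) : ∃ M' : Matroid E,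
    M'.E = Set.univ ∧ ∀ B, M'.IsBase B ↔ IsMin M v B := by
  refine ⟨Matroid.ofIsBaseOfFinite (E := Set.univ) Set.finite_univ (IsMin M v)
    (exists_isMin M v) ?_ (fun B _ => Set.subset_univ B), rfl, fun B => Iff.rfl⟩
  intro B B' hB hB' x hx
  obtain ⟨y, hy, h1, h2⟩ := symm_exchange hB.1 hB'.1 hx
  refine ⟨y, hy, hB.of_le h1 ?_⟩
  have h3 := hB'.2 _ h2
  rw [wtS_exchange v hy.1 hx.2] at h3
  rw [wtS_exchange v hx.1 hy.2]
  linarith

/-- (BC) -/
theorem bergM_iff [Finite E] (hE : M.E = Set.univ) (hl : ∀ e, M.Indep {e}) (y : E → ℝ) :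
    BergM M y ↔ ∀ e, ∃ B, IsMin M y B ∧ e ∈ B := by
  constructor
  · intro h e
    obtain ⟨B, hB⟩ := exists_isMin M y
    by_cases he : e ∈ B
    · exact ⟨B, hB, he⟩
    · have heE : e ∈ M.E := by rw [hE]; exact Set.mem_univ e
      have hC := hB.1.fundCircuit_isCircuit heE he
      obtain ⟨f, hf, hfe, hle⟩ := h _ hC e (M.mem_fundCircuit e B)
      have hfB : f ∈ B := by
        rcases M.fundCircuit_subset_insert e B hf with h | h
        · exact absurd h hfe
        · exact h
      have hcl : e ∈ M.closure B := by rw [hB.1.closure_eq]; exact heE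
      have h2 := (hB.1.indep.mem_fundCircuit_iff hcl he).1 hf
      rw [← Set.insert_sdiff_singleton_comm (Ne.symm hfe)] at h2
      have h3 := hB.1.exchange_isBase_of_indep he h2
      refine ⟨_, hB.of_le h3 ?_, Set.mem_insert e _⟩
      rw [wtS_exchange y hfB he]
      linarith
  · intro h C hC e he
    by_contra hcon
    have hcon' : ∀ f ∈ C, f ≠ e → y f < y e := by
      intro f hf hfe
      by_contra h1
      exact hcon ⟨f, hf, hfe, not_lt.1 h1⟩
    obtain ⟨B, hB, heB⟩ := h e
    have h1 : e ∈ M.closure (C \ {e}) := hC.mem_closure_sdiff_singleton_of_mem he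
    have h2 : e ∉ M.closure (B \ {e}) := hB.1.indep.notMem_closure_sdiff_of_mem heB
    have h3 : ∃ f ∈ C \ {e}, f ∉ M.closure (B \ {e}) := by
      by_contra hno
      have hsub : C \ {e} ⊆ M.closure (B \ {e}) := by
        intro f hf
        by_contra h4
        exact hno ⟨f, hf, h4⟩
      exact h2 (M.closure_subset_closure_of_subset_closure hsub h1)
    obtain ⟨f, hf, hfcl⟩ := h3
    have hfE : f ∈ M.E := by rw [hE]; exact Set.mem_univ f
    have hfe : f ≠ e := hf.2
    have hfB : f ∉ B := by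
      intro hfB
      exact hfcl (M.mem_closure_of_mem' ⟨hfB, hfe⟩ hfE)
    have h4 := hB.1.exchange_base_of_notMem_closure heB hfcl hfE
    have h5 := hB.2 _ h4
    rw [wtS_exchange y heB hfB] at h5
    have h6 := hcon' f hf.1 hfe
    linarith

theorem exists_gap [Finite E] (v : E → ℝ) :
    ∃ g : ℝ, 0 < g ∧ ∀ B B' : Set E, wtS v B < wtS v B' → g ≤ wtS v B' - wtS v B := by
  by_cases hne : Nonempty {p : Set E × Set E // wtS v p.1 < wtS v p.2}
  · obtain ⟨p, hp⟩ := Finite.exists_min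
      (fun p : {p : Set E × Set E // wtS v p.1 < wtS v p.2} => wtS v p.1.2 - wtS v p.1.1)
    exact ⟨wtS v p.1.2 - wtS v p.1.1, sub_pos.2 p.2, fun B B' h => hp ⟨(B, B'), h⟩⟩
  · exact ⟨1, one_pos, fun B B' h => absurd ⟨⟨(B, B'), h⟩⟩ hne⟩

/-- (C5) -/
theorem exists_star [Finite E] (hE : M.E = Set.univ) (hl : ∀ e, M.Indep {e}) {v : E → ℝ}
    (hv : BergM M v) : ∃ M' : Matroid E, M'.E = Set.univ ∧ (∀ e, M'.Indep {e}) ∧
      ∃ δ : ℝ, 0 < δ ∧ ∀ y : E → ℝ, (∀ e, |y e| < δ) → (BergM M (v + y) ↔ BergM M' y) := by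
  obtain ⟨M', hE', hM'⟩ := exists_minM hE v
  have hl' : ∀ e, M'.Indep {e} := by
    intro e
    obtain ⟨B, hB, heB⟩ := (bergM_iff hE hl v).1 hv e
    exact ((hM' B).2 hB).indep.subset (Set.singleton_subset_iff.2 heB)
  refine ⟨M', hE', hl', ?_⟩
  obtain ⟨g, hg, hgap⟩ := exists_gap v
  have hN : (0 : ℝ) ≤ Nat.card E := Nat.cast_nonneg _
  have hδ : 0 < g / (2 * Nat.card E + 1) := div_pos hg (by linarith)
  refine ⟨g / (2 * Nat.card E + 1), hδ, fun y hy => ?_⟩
  have hab : ∀ B : Set E, |wtS y B| ≤ Nat.card E * (g / (2 * Nat.card E + 1)) :=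
    fun B => abs_wtS_le y B hδ.le (fun e => (hy e).le)
  have hsm : 2 * (Nat.card E * (g / (2 * Nat.card E + 1))) < g := by
    have h1 : g / (2 * Nat.card E + 1) * (2 * Nat.card E + 1) = g :=
      div_mul_cancel₀ g (by linarith)
    linarith
  have key : ∀ B : Set E, IsMin M (v + y) B ↔ IsMin M' y B := by
    intro B
    constructor
    · rintro ⟨hB, hmin⟩
      obtain ⟨B0, hB0⟩ := exists_isMin M v
      have h1 : wtS v B ≤ wtS v B0 := by
        by_contra hlt
        have h2 := hgap B0 B (not_le.1 hlt)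
        have h3 := hmin B0 hB0.1
        rw [wtS_add, wtS_add] at h3
        have h4 := (abs_le.1 (hab B)).1
        have h5 := (abs_le.1 (hab B0)).2
        linarith
      have h2 : IsMin M v B := hB0.of_le hB h1
      refine ⟨(hM' B).2 h2, fun B' hB' => ?_⟩
      have h3 := (hM' B').1 hB'
      have h4 := hmin B' h3.1
      rw [wtS_add, wtS_add, h2.eq h3] at h4
      linarith
    · rintro ⟨hB, hmin⟩
      have h2 := (hM' B).1 hB
      refine ⟨h2.1, fun B' hB' => ?_⟩
      rw [wtS_add, wtS_add]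
      rcases (h2.2 B' hB').lt_or_eq with hlt | heq
      · have h3 := hgap B B' hlt
        have h4 := (abs_le.1 (hab B)).2
        have h5 := (abs_le.1 (hab B')).1
        linarith
      · have h3 : IsMin M v B' := h2.of_le hB' heq.ge
        have h4 := hmin B' ((hM' B').2 h3)
        linarith
  rw [bergM_iff hE hl, bergM_iff hE' hl']
  constructor
  · intro h e
    obtain ⟨B, hB, he⟩ := h e
    exact ⟨B, (key B).1 hB, he⟩
  · intro h e
    obtain ⟨B, hB, he⟩ := h e
    exact ⟨B, (key B).2 hB, he⟩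

end Pool.Agent.TD
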