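import Pool.Agent.TD.N.Defs

/-! Matroids (PAPER2.md, MT): adding coloops (module TD_MT_C6). -/

namespace Pool.Agent.TD

/-- (C6) adding coloops does not change the conditions. -/
theorem exists_coloops {E J : Type} [Finite E] [Finite J] (M : Matroid E) (hE : M.E = Set.univ)
    (hl : ∀ e, M.Indep {e}) : ∃ M' : Matroid (E ⊕ J), M'.E = Set.univ ∧ (∀ e, M'.Indep {e}) ∧
      ∀ y : E ⊕ J → ℝ, BergM M' y ↔ BergM M fun e => y (Sum.inl e) := by
  have hI : ∀ I : Set (E ⊕ J), (M.sum (Matroid.freeOn Set.univ)).Indep I ↔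
      M.Indep (Sum.inl ⁻¹' I) := by
    intro I
    rw [Matroid.sum_indep_iff]
    simp
  have hg : (M.sum (Matroid.freeOn (Set.univ : Set J))).E = Set.univ := by
    rw [Matroid.sum_ground, hE, Matroid.freeOn_ground]
    ext x
    cases x <;> simp
  refine ⟨M.sum (Matroid.freeOn Set.univ), hg, ?_, ?_⟩
  · intro e
    rw [hI]
    cases e with
    | inl e =>
      have : (Sum.inl ⁻¹' ({Sum.inl e} : Set (E ⊕ J))) = {e} := by
        ext x
        simp
      rw [this]
      exact hl e
    | inr j =>
      have : (Sum.inl ⁻¹' ({Sum.inr j} : Set (E ⊕ J))) = ∅ := by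
        ext x
        simp
      rw [this]
      exact M.empty_indep
  · intro y
    have hcirc : ∀ C : Set E, M.IsCircuit C →
        (M.sum (Matroid.freeOn (Set.univ : Set J))).IsCircuit (Sum.inl '' C) := by
      intro C hC
      rw [Matroid.isCircuit_iff_minimal_not_indep (by rw [hg]; exact Set.subset_univ _)]
      have hC' := hC.minimal_not_indep
      constructor
      · show ¬ _
        rw [hI, Set.preimage_image_eq _ Sum.inl_injective]
        exact hC'.prop
      · intro D hD hDC
        replace hD : ¬ M.Indep (Sum.inl ⁻¹' D) := by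
          rw [← hI]
          exact hD
        have h1 : Sum.inl ⁻¹' D ⊆ C := by
          intro x hx
          obtain ⟨z, hz, hzx⟩ := hDC hx
          rwa [← Sum.inl_injective hzx]
        have h2 := hC'.le_of_le hD h1
        rintro _ ⟨z, hz, rfl⟩
        exact h2 hz
    have hcirc2 : ∀ C : Set (E ⊕ J), (M.sum (Matroid.freeOn (Set.univ : Set J))).IsCircuit C →
        ∃ C0, M.IsCircuit C0 ∧ C = Sum.inl '' C0 := by
      intro C hC
      have hC' := hC.minimal_not_indep
      have hp : ¬ M.Indep (Sum.inl ⁻¹' C) := by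
        rw [← hI]
        exact hC'.prop
      have hsub : C ⊆ Sum.inl '' (Sum.inl ⁻¹' C) := by
        apply hC'.le_of_le
        · show ¬ _
          rw [hI, Set.preimage_image_eq _ Sum.inl_injective]
          exact hp
        · exact Set.image_preimage_subset _ _
      refine ⟨Sum.inl ⁻¹' C, ?_, Set.Subset.antisymm hsub (Set.image_preimage_subset _ _)⟩
      rw [Matroid.isCircuit_iff_minimal_not_indep (by rw [hE]; exact Set.subset_univ _)]
      refine ⟨hp, ?_⟩
      intro D hD hDC
      have h3 : C ⊆ Sum.inl '' D := by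
        apply hC'.le_of_le
        · show ¬ _
          rw [hI, Set.preimage_image_eq _ Sum.inl_injective]
          exact hD
        · rintro _ ⟨z, hz, rfl⟩
          exact hDC hz
      intro x hx
      obtain ⟨z, hz, hzx⟩ := h3 hx
      rwa [← Sum.inl_injective hzx]
    constructor
    · intro h C hC e he
      obtain ⟨f, hf, hne, hle⟩ := h (Sum.inl '' C) (hcirc C hC) (Sum.inl e) ⟨e, he, rfl⟩
      obtain ⟨g, hg, rfl⟩ := hf
      exact ⟨g, hg, fun h => hne (by rw [h]), hle⟩
    · intro h C hC e he
      obtain ⟨C0, hC0, rfl⟩ := hcirc2 C hC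
      obtain ⟨e0, he0, rfl⟩ := he
      obtain ⟨f, hf, hne, hle⟩ := h C0 hC0 e0 he0
      exact ⟨Sum.inl f, ⟨f, hf, rfl⟩, fun h => hne (Sum.inl_injective h), hle⟩

end Pool.Agent.TD
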